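import Pool.Agent.TH426.MT.Tau
import Pool.Agent.H337R2.LZ.Z

/-!
# The de Rham–Betti form of the period conjecture for mixed Tate motives over `ℤ`

The Tannaka group of `MT(ℤ)` is `U ⋊ 𝔾_m`, the graded Lie algebra of `U` being free on generators
`σ_3, σ_5, σ_7, …`. An object of `MT(ℤ)` is therefore a finite dimensional graded `ℚ`-vector space
with arbitrary operators `σ_3, σ_5, …`, `σ_m` changing the degree by `m` (we count the degree such that
`ℚ(n)` has degree `n`). The torsor of isomorphisms between the Betti and de Rham fibre functors has a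
rational point; in the corresponding bases the matrix of the comparison isomorphism
`ω_B ⊗ ℂ → ω_dR ⊗ ℂ` of the object is `∑_w u_w σ_w · (2πi)^degree`. Here `w` runs through the words in
the letters `3, 5, 7, …`, and `u_w` is the period of the element `f_w` in an isomorphism of the ring of
motivic periods with `ℚ⟨f_3, f_5, …⟩ ⊗ ℚ[f^{±1}]`, `per f = 2πi`, normalised by `per f_m = ζ(m)`.

The de Rham–Betti form of the period conjecture says that the de Rham–Betti structures (two rational
spaces with an isomorphism of their complexifications) attached to the objects have no other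
subobjects and no other morphisms than the motivic ones.
-/

set_option autoImplicit false
set_option linter.unusedSectionVars false

namespace Pool.Agent.Results.MP_e54452_nt.DeRhamBettiForm

/-- The value `ζ(2n + 3)`. -/
noncomputable def oddZeta (n : ℕ) : ℝ := ∑' j : ℕ, 1 / ((j : ℝ) + 1) ^ (2 * n + 3)

/-- An object of `MT(ℤ) ⊗ k`, in a homogeneous basis indexed by `ι`: degrees `d i`, and the matrices
`σ n` of the generators `σ_{2n+3}`, which raise the degree by `2n + 3`. -/
structure Obj (k : Type) [Field k] where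
  ι : Type
  [fintype : Fintype ι]
  [deceq : DecidableEq ι]
  d : ι → ℤ
  σ : ℕ → Matrix ι ι k
  raises : ∀ n i j, σ n i j ≠ 0 → d i = d j + (2 * n + 3)

attribute [instance] Obj.fintype Obj.deceq

variable {k : Type} [Field k] [Algebra k ℂ]

/-- The matrix of the comparison isomorphism: `∑_w u_w σ_w · (2πi)^degree`, the sum over all words `w`
in the letters `0, 1, 2, …` which stand for `3, 5, 7, …` (finitely many terms are not zero). -/
noncomputable def Obj.comp (M : Obj k) (u : List ℕ → ℂ) : Matrix M.ι M.ι ℂ := fun i j =>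
  (∑ᶠ w : List ℕ, u w * algebraMap k ℂ ((w.map M.σ).prod i j)) *
    (2 * Real.pi * Complex.I) ^ M.d j

/-- The complexification of a subspace. -/
def complexify {ι : Type} (W : Submodule k (ι → k)) : Submodule ℂ (ι → ℂ) :=
  Submodule.span ℂ {y | ∃ v ∈ W, y = fun i => algebraMap k ℂ (v i)}

/-- The pair `(W, W')` of `k`-subspaces is a subobject of the de Rham–Betti structure of `M`: the
comparison isomorphism maps `W ⊗ ℂ` onto `W' ⊗ ℂ`. -/
def Obj.IsDRB (M : Obj k) (u : List ℕ → ℂ) (W W' : Submodule k (M.ι → k)) : Prop :=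
  (complexify W).map (Matrix.mulVecLin (M.comp u)) = complexify W'

/-- `W` is a subobject of `M`: it is graded and stable by all `σ n`. -/
def Obj.IsSub (M : Obj k) (W : Submodule k (M.ι → k)) : Prop :=
  (∀ v ∈ W, ∀ m : ℤ, (fun i => if M.d i = m then v i else 0) ∈ W) ∧
    ∀ n, ∀ v ∈ W, (M.σ n).mulVec v ∈ W

/-- Every subobject of the de Rham–Betti structure of `M` comes from a subobject of `M`. -/
def Obj.Saturated (M : Obj k) (u : List ℕ → ℂ) : Prop :=
  ∀ W W' : Submodule k (M.ι → k), M.IsDRB u W W' → W = W' ∧ M.IsSub W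

/-- Every morphism `(f, f')` of the de Rham–Betti structures comes from a morphism `M → N`: `f = f'`
is homogeneous of degree `0` and commutes with all `σ n`. -/
def Full (M N : Obj k) (u : List ℕ → ℂ) : Prop :=
  ∀ f f' : Matrix N.ι M.ι k,
    N.comp u * f.map (algebraMap k ℂ) = f'.map (algebraMap k ℂ) * M.comp u →
    f = f' ∧ (∀ i j, f i j ≠ 0 → N.d i = M.d j) ∧ ∀ n, N.σ n * f = f * M.σ n

/-! ### Proof -/

section aux

open Pool.Agent.TH426.MT Complex

def deg (n : ℕ) : ℕ := 2 * n + 3

theorem deg_inj : ∀ l l' : ℕ, deg l = deg l' → l = l' := fun l l' h => by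
  unfold deg at h; omega

theorem deg_pos : ∀ l : ℕ, 0 < deg l := fun l => by unfold deg; omega

theorem raises' (M : Obj k) : ∀ l i j, M.σ l i j ≠ 0 → M.d i = M.d j + deg l := fun l i j h => by
  rw [M.raises l i j h]; unfold deg; push_cast; ring

theorem comp_eq (M : Obj k) (u : List ℕ → ℂ) : M.comp u = perMatrix tau M.d u M.σ := rfl

theorem complexify_eq {ι : Type} (W : Submodule k (ι → k)) : complexify W = spanC W := by
  unfold complexify spanC
  congr 1
  ext y
  constructor
  · rintro ⟨v, hv, rfl⟩; exact ⟨v, hv, rfl⟩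
  · rintro ⟨v, hv, rfl⟩; exact ⟨v, hv, rfl⟩

/-- The condition on the odd zeta values. -/
def Cond (k : Type) [Field k] [Algebra k ℂ] (n : ℕ) : Prop :=
  ∀ a b : k, (oddZeta n : ℂ) ≠
    algebraMap k ℂ a + algebraMap k ℂ b * (2 * Real.pi * I) ^ (2 * n + 3)

theorem sat_of (hk : ∀ x : k, IsAlgebraic ℚ (algebraMap k ℂ x)) {u : List ℕ → ℂ} (h0 : u [] = 1)
    (h1 : ∀ n, u [n] = oddZeta n) (M : Obj k) (hM : ∀ n, M.σ n ≠ 0 → Cond k n) :
    M.Saturated u := by
  intro W W' h
  unfold Obj.IsDRB at h
  rw [complexify_eq, complexify_eq, comp_eq] at h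
  have hfin : {l | M.σ l ≠ 0}.Finite := fin_of_inj deg_inj (raises' M)
  obtain ⟨h3, h4, h5⟩ := saturated (σ := M.σ) (d := M.d) (u := u) (W := W) (W' := W') deg_pos
    (raises' M) hfin tau_ne h0
    (single_ind hk deg_inj hfin (fun l hl a b => by
      rw [h1]; exact hM l hl a b))
    (fun v hv => by
      rw [← h]
      exact ⟨ext v, Submodule.subset_span ⟨v, hv, rfl⟩, rfl⟩)
    (fun v hv => by
      have : ext v ∈ spanC W' := Submodule.subset_span ⟨v, hv, rfl⟩
      rw [← h] at this
      obtain ⟨y, hy, hyv⟩ := this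
      exact ⟨y, hy, hyv⟩)
  exact ⟨h3, h4, fun n v hv => h5 v hv n⟩

theorem full_of (hk : ∀ x : k, IsAlgebraic ℚ (algebraMap k ℂ x)) {u : List ℕ → ℂ} (h0 : u [] = 1)
    (h1 : ∀ n, u [n] = oddZeta n) (M N : Obj k) (hM : ∀ n, M.σ n ≠ 0 → Cond k n)
    (hN : ∀ n, N.σ n ≠ 0 → Cond k n) : Full M N u := by
  intro f f' h
  rw [comp_eq, comp_eq] at h
  have hfin : {l | M.σ l ≠ 0}.Finite := fin_of_inj deg_inj (raises' M)
  have hfin' : {l | N.σ l ≠ 0}.Finite := fin_of_inj deg_inj (raises' N)
  have hs : ∀ l, dsum M.σ N.σ l ≠ 0 → M.σ l ≠ 0 ∨ N.σ l ≠ 0 := by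
    intro l hl
    by_contra hcon
    push Not at hcon
    apply hl
    unfold dsum
    rw [hcon.1, hcon.2, Matrix.fromBlocks_zero]
  refine full deg_pos (raises' M) (raises' N) hfin hfin' tau_ne h0 ?_ h
  apply single_ind hk deg_inj
  · exact (hfin.union hfin').subset (fun l hl => hs l hl)
  · intro l hl a b
    rw [h1]
    rcases hs l hl with h2 | h2
    · exact hM l h2 a b
    · exact hN l h2 a b

/-- Degrees of the extension with the period `ζ(2n + 3)`. -/
def extd (n : ℕ) : Fin 2 → ℤ := ![0, 2 * n + 3]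

/-- Operators of this extension. -/
def exts (k : Type) [Field k] (n : ℕ) (m : ℕ) : Matrix (Fin 2) (Fin 2) k :=
  if m = n then !![0, 0; 1, 0] else 0

theorem exts_raises (n m : ℕ) (i j : Fin 2) (h : exts k n m i j ≠ 0) :
    extd n i = extd n j + (2 * m + 3) := by
  unfold exts at h
  by_cases hm : m = n
  · rw [if_pos hm] at h
    subst hm
    fin_cases i <;> fin_cases j <;> simp_all [extd]
  · rw [if_neg hm] at h
    exact absurd rfl h

/-- The extension with the period `ζ(2n + 3)`. -/
def extObj (k : Type) [Field k] [Algebra k ℂ] (n : ℕ) : Obj k where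
  ι := Fin 2
  d := extd n
  σ := exts k n
  raises := exts_raises n

/-- The unit object. -/
def unitObj (k : Type) [Field k] : Obj k where
  ι := Fin 1
  d := fun _ => 0
  σ := fun _ => 0
  raises := by
    intro m i j h
    exact absurd rfl h

theorem comp_unit {u : List ℕ → ℂ} (h0 : u [] = 1) :
    perMatrix tau (fun _ : Fin 1 => (0 : ℤ)) u (fun _ : ℕ => (0 : Matrix (Fin 1) (Fin 1) k)) = 1 := by
  ext i j
  have h : unip u (fun _ : ℕ => (0 : Matrix (Fin 1) (Fin 1) k)) i j = if i = j then 1 else 0 :=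
    unip_eq_diag (deg := deg) (d := fun _ : Fin 1 => (0 : ℤ)) deg_pos
      (fun l i j h => absurd rfl h) h0 rfl
  unfold perMatrix
  rw [h, zpow_zero, mul_one, Matrix.one_apply]

theorem comp_ext {u : List ℕ → ℂ} (h0 : u [] = 1) (n : ℕ) :
    perMatrix tau (extd n) u (exts k n) = !![1, 0; u [n], tau ^ (2 * n + 3)] := by
  have hr := raises' (extObj k n)
  have hr' : ∀ l i j, exts k n l i j ≠ 0 → extd n i = extd n j + deg l := hr
  have h00 : unip u (exts k n) 0 0 = 1 := by
    rw [unip_eq_diag deg_pos hr' h0 rfl]; rfl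
  have h11 : unip u (exts k n) 1 1 = 1 := by
    rw [unip_eq_diag deg_pos hr' h0 rfl]; rfl
  have h01 : unip u (exts k n) 0 1 = 0 := by
    apply unip_eq_zero hr'
    show (0 : ℤ) < 2 * n + 3
    omega
  have h10 : unip u (exts k n) 1 0 = u [n] := by
    unfold unip
    rw [finsum_eq_single _ [n]]
    · have : op (exts k n) [n] 1 0 = 1 := by
        rw [op_cons, op_nil, mul_one]
        unfold exts
        rw [if_pos rfl]
        rfl
      rw [this, map_one, mul_one]
    · intro w hw
      by_cases h : op (exts k n) w 1 0 = 0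
      · rw [h, map_zero, mul_zero]
      · exfalso
        have h2 := op_deg hr' w _ _ h
        have h3 : wt deg w = 2 * n + 3 := by
          have h4 : extd n 1 = 2 * n + 3 := rfl
          have h5 : extd n 0 = 0 := rfl
          rw [h4, h5] at h2
          omega
        match w, hw, h, h3 with
        | [], _, _, h3 => simp [wt] at h3
        | [l], hw, _, h3 =>
          simp only [wt, deg, List.map_cons, List.map_nil, List.sum_cons, List.sum_nil] at h3
          exact hw (by rw [show l = n by omega])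
        | l :: l' :: w, _, h, h3 =>
          have hl : l ≠ n := by
            rintro rfl
            simp only [wt, deg, List.map_cons, List.sum_cons] at h3
            omega
          apply h
          rw [op_cons]
          have : exts k n l = 0 := by
            unfold exts
            rw [if_neg hl]
          rw [this, zero_mul]
          rfl
  ext i j
  unfold perMatrix
  fin_cases i <;> fin_cases j
  · show unip u (exts k n) 0 0 * tau ^ (0 : ℤ) = 1
    rw [h00, zpow_zero, mul_one]
  · show unip u (exts k n) 0 1 * _ = 0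
    rw [h01, zero_mul]
  · show unip u (exts k n) 1 0 * tau ^ (0 : ℤ) = u [n]
    rw [h10, zpow_zero, mul_one]
  · show unip u (exts k n) 1 1 * tau ^ (2 * (n : ℤ) + 3) = tau ^ (2 * n + 3)
    rw [h11, one_mul]
    exact_mod_cast rfl

theorem cond_of_full {u : List ℕ → ℂ} (h0 : u [] = 1) (h1 : ∀ n, u [n] = oddZeta n) (n : ℕ)
    (h : Full (unitObj k) (extObj k n) u) : Cond k n := by
  intro a b hab
  have hfull : ∀ f f' : Matrix (Fin 2) (Fin 1) k,
      perMatrix tau (extd n) u (exts k n) * f.map (algebraMap k ℂ) =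
        f'.map (algebraMap k ℂ) * perMatrix tau (fun _ : Fin 1 => (0 : ℤ)) u
          (fun _ : ℕ => (0 : Matrix (Fin 1) (Fin 1) k)) →
      f = f' ∧ (∀ i j, f i j ≠ 0 → extd n i = 0) ∧
        ∀ m, exts k n m * f = f * (0 : Matrix (Fin 1) (Fin 1) k) := h
  obtain ⟨-, -, h3⟩ := hfull !![1; -b] !![1; a] (by
    rw [comp_unit h0, comp_ext h0, Matrix.mul_one, h1, hab]
    ext i j
    fin_cases i <;> fin_cases j
    · simp [Matrix.mul_apply, Fin.sum_univ_two]
    · simp [Matrix.mul_apply, Fin.sum_univ_two, tau]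
      ring)
  have h4 := congrFun (congrFun (h3 n) 1) 0
  unfold exts at h4
  rw [if_pos rfl, Matrix.mul_zero] at h4
  simp [Matrix.mul_apply, Fin.sum_univ_two] at h4

theorem cond_of_sat {u : List ℕ → ℂ} (h0 : u [] = 1) (h1 : ∀ n, u [n] = oddZeta n) (n : ℕ)
    (h : (extObj k n).Saturated u) : Cond k n := by
  intro a b hab
  have hsat : ∀ W W' : Submodule k (Fin 2 → k),
      (complexify W).map (Matrix.mulVecLin (perMatrix tau (extd n) u (exts k n))) =
        complexify W' → W = W' ∧ (∀ v ∈ W, ∀ m : ℤ, (fun i => if extd n i = m then v i else 0) ∈ W) ∧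
        ∀ m, ∀ v ∈ W, (exts k n m).mulVec v ∈ W := h
  have key : ∀ (x : k), complexify (Submodule.span k {(![1, x] : Fin 2 → k)}) =
      Submodule.span ℂ {(![1, algebraMap k ℂ x] : Fin 2 → ℂ)} := by
    intro x
    apply le_antisymm
    · unfold complexify
      rw [Submodule.span_le]
      rintro y ⟨v, hv, rfl⟩
      obtain ⟨c, rfl⟩ := Submodule.mem_span_singleton.1 hv
      apply Submodule.mem_span_singleton.2
      refine ⟨algebraMap k ℂ c, ?_⟩
      ext i
      fin_cases i <;> simp
    · rw [Submodule.span_singleton_le_iff_mem]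
      apply Submodule.subset_span
      refine ⟨![1, x], Submodule.mem_span_singleton_self _, ?_⟩
      ext i
      fin_cases i <;> simp
  obtain ⟨-, -, h3⟩ := hsat (Submodule.span k {(![1, -b] : Fin 2 → k)})
    (Submodule.span k {(![1, a] : Fin 2 → k)}) (by
      rw [key, key, Submodule.map_span, Set.image_singleton]
      congr 1
      rw [Set.singleton_eq_singleton_iff, comp_ext h0, h1, hab]
      ext i
      fin_cases i
      · simp [Matrix.mulVec, dotProduct, Fin.sum_univ_two]
      · simp [Matrix.mulVec, dotProduct, Fin.sum_univ_two, tau]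
        ring)
  have h4 := h3 n _ (Submodule.mem_span_singleton_self _)
  obtain ⟨c, hc⟩ := Submodule.mem_span_singleton.1 h4
  unfold exts at hc
  rw [if_pos rfl] at hc
  have h6 := congrFun hc 0
  have h7 := congrFun hc 1
  simp [Matrix.mulVec, dotProduct, Fin.sum_univ_two] at h6
  rw [h6] at h7
  simp [Matrix.mulVec, dotProduct, Fin.sum_univ_two] at h7

/-- Over `ℚ` the condition is the irrationality. -/
theorem cond_iff (n : ℕ) : Cond ℚ n ↔ Irrational (oddZeta n) := by
  constructor
  · rintro h ⟨q, hq⟩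
    apply h q 0
    rw [← hq]
    simp
  · intro h a b hab
    apply h
    refine ⟨a, ?_⟩
    have h1 := congrArg Complex.re hab
    have h2 : ((2 * Real.pi * I : ℂ) ^ (2 * n + 3)).re = 0 := by
      have : (2 * Real.pi * I : ℂ) ^ (2 * n + 3) =
          (((2 * Real.pi) ^ (2 * n + 3) * (-1) ^ (n + 1) : ℝ) : ℂ) * I := by
        rw [mul_pow, show 2 * n + 3 = 2 * (n + 1) + 1 by ring, pow_succ I, pow_mul I, I_sq]
        push_cast
        ring
      rw [this, Complex.re_ofReal_mul, Complex.I_re, mul_zero]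
    have h3 : (algebraMap ℚ ℂ b * (2 * Real.pi * I) ^ (2 * n + 3) : ℂ).re = 0 := by
      rw [show (algebraMap ℚ ℂ b : ℂ) = ((b : ℝ) : ℂ) by simp, Complex.re_ofReal_mul, h2, mul_zero]
    rw [Complex.add_re, h3, add_zero, Complex.ofReal_re] at h1
    rw [h1]
    simp

theorem alg_rat : ∀ x : ℚ, IsAlgebraic ℚ (algebraMap ℚ ℂ x) := fun x => isAlgebraic_algebraMap x

theorem irr_three : Irrational (oddZeta 0) := by
  rintro ⟨q, hq⟩
  have h := Pool.Agent.LZ.Z3_linind
  rw [Fintype.linearIndependent_iff] at h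
  have e : oddZeta 0 = Pool.Agent.H337R2.zr 3 := rfl
  rw [e] at hq
  have h1 := h ![q, 0, -1] (by
    rw [Fin.sum_univ_three]
    simp only [Matrix.cons_val_zero, Matrix.cons_val_one, Matrix.cons_val, Rat.smul_def]
    rw [← hq]
    push_cast
    ring) 2
  simp at h1

end aux

/-- **Main result.** Let `u` be any family with `u_∅ = 1` and `u_m = ζ(m)` for the words `m` with one
letter.

Over `ℚ`: (1), (2) the de Rham–Betti form of the period conjecture holds for all objects on which
only the `σ_m` with `ζ(m)` irrational act nontrivially, for subobjects and for morphisms;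
(3), (4) in particular if only `σ_3` acts; (5), (6) it holds for all objects, in either form, if and
only if all `ζ(3), ζ(5), ζ(7), …` are irrational.

(7) With algebraic coefficients: for every field `k` of algebraic numbers the following are
equivalent: all subobjects are motivic; all morphisms are motivic; no `ζ(m)`, `m ≥ 3` odd, is of the
form `a + b (2πi)^m` with `a, b ∈ k`. -/
theorem result (u : List ℕ → ℂ) (h0 : u [] = 1) (h1 : ∀ n, u [n] = oddZeta n) :
    (∀ M : Obj ℚ, (∀ n, M.σ n ≠ 0 → Irrational (oddZeta n)) → M.Saturated u) ∧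
    (∀ M N : Obj ℚ, (∀ n, M.σ n ≠ 0 ∨ N.σ n ≠ 0 → Irrational (oddZeta n)) → Full M N u) ∧
    (∀ M : Obj ℚ, (∀ n, 1 ≤ n → M.σ n = 0) → M.Saturated u) ∧
    (∀ M N : Obj ℚ, (∀ n, 1 ≤ n → M.σ n = 0 ∧ N.σ n = 0) → Full M N u) ∧
    ((∀ M : Obj ℚ, M.Saturated u) ↔ ∀ n, Irrational (oddZeta n)) ∧
    ((∀ M N : Obj ℚ, Full M N u) ↔ ∀ n, Irrational (oddZeta n)) ∧
    (∀ (k : Type) [Field k] [Algebra k ℂ], (∀ x : k, IsAlgebraic ℚ (algebraMap k ℂ x)) →
      List.TFAE [∀ M : Obj k, M.Saturated u, ∀ M N : Obj k, Full M N u,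
        ∀ n, ∀ a b : k, (oddZeta n : ℂ) ≠
          algebraMap k ℂ a + algebraMap k ℂ b * (2 * Real.pi * Complex.I) ^ (2 * n + 3)]) := by
  refine ⟨?_, ?_, ?_, ?_, ?_, ?_, ?_⟩
  · exact fun M hM => sat_of alg_rat h0 h1 M fun n hn => (cond_iff n).2 (hM n hn)
  · exact fun M N hMN => full_of alg_rat h0 h1 M N
      (fun n hn => (cond_iff n).2 (hMN n (Or.inl hn)))
      (fun n hn => (cond_iff n).2 (hMN n (Or.inr hn)))
  · refine fun M hM => sat_of alg_rat h0 h1 M fun n hn => (cond_iff n).2 ?_
    rcases Nat.eq_zero_or_pos n with rfl | h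
    · exact irr_three
    · exact absurd (hM n h) hn
  · refine fun M N hMN => full_of alg_rat h0 h1 M N
      (fun n hn => (cond_iff n).2 ?_) (fun n hn => (cond_iff n).2 ?_)
    · rcases Nat.eq_zero_or_pos n with rfl | h
      · exact irr_three
      · exact absurd (hMN n h).1 hn
    · rcases Nat.eq_zero_or_pos n with rfl | h
      · exact irr_three
      · exact absurd (hMN n h).2 hn
  · exact ⟨fun h n => (cond_iff n).1 (cond_of_sat h0 h1 n (h _)),
      fun h M => sat_of alg_rat h0 h1 M fun n _ => (cond_iff n).2 (h n)⟩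
  · exact ⟨fun h n => (cond_iff n).1 (cond_of_full h0 h1 n (h _ _)),
      fun h M N => full_of alg_rat h0 h1 M N (fun n _ => (cond_iff n).2 (h n))
        (fun n _ => (cond_iff n).2 (h n))⟩
  · intro k _ _ hk
    tfae_have 1 → 3 := fun h n => cond_of_sat h0 h1 n (h _)
    tfae_have 2 → 3 := fun h n => cond_of_full h0 h1 n (h _ _)
    tfae_have 3 → 1 := fun h M => sat_of hk h0 h1 M fun n _ => h n
    tfae_have 3 → 2 := fun h M N => full_of hk h0 h1 M N (fun n _ => h n) (fun n _ => h n)
    tfae_finish

end Pool.Agent.Results.MP_e54452_nt.DeRhamBettiForm
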