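import Pool.Agent.TH133.MZ.Period

/-!
# MP_e54452_nt: the period conjecture for mixed Tate motives over the integers

Let `P` be the ring of motivic periods of the mixed Tate motives over `ℤ`, `H_n` the space of the
motivic multiple zeta values of weight `n`, `d_n = dim H_n` (Zagier's sequence), `D_N = d_0 + ... + d_N`
and `Z_(≤ N)` the `ℚ`-span of the real multiple zeta values of weight at most `N` (the value `1` of
the empty index included). Under the known properties of `P` (see `IsPeriodModel`) the following are
equivalent.

1. The period homomorphism `per : P → ℂ` is injective (Q1).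
2. For every `l` there are arbitrarily large `n` such that `per` is injective on
   `H_n + ... + H_(n+l-1)`.
3. `limsup dim Z_(≤ n) / D_n = 1`: for all `ε > 0` there are arbitrarily large `n` with
   `dim Z_(≤ n) ≥ (1 - ε) D_n`.
4. For every `w` there is `n ≥ w` with `dim Z_(≤ n) > D_n - D_(n-w)`.
-/

open Module

namespace Pool.Agent.Results.MP_e54452_nt.InjectivityFromDimensions

open Pool.Agent.TH133.MZ

/-- **The period homomorphism is injective on all motivic periods if and only if the dimension of the
span of the real multiple zeta values of weight at most `n` is asymptotic to the motivic one along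
some sequence of weights.** -/
theorem result {P : Type*} [CommRing P] [Algebra ℚ P] {gr : ℕ → Submodule ℚ P} {L : P}
    {per : P →ₐ[ℚ] ℂ} {d : ℕ → ℕ} (hd : IsZagierSeq d) (h : IsPeriodModel gr L per d) :
    List.TFAE [
      Function.Injective per,
      ∀ l N : ℕ, ∃ n : ℕ, N ≤ n ∧ ∀ z : ℕ → P, (∀ j, z j ∈ gr j) →
        per (∑ j ∈ Finset.range l, z (n + j)) = 0 → ∑ j ∈ Finset.range l, z (n + j) = 0,
      ∀ ε : ℝ, 0 < ε → ∀ N : ℕ, ∃ n : ℕ, N ≤ n ∧ (1 - ε) * dsum d n ≤ finrank ℚ (Zle n),
      ∀ w : ℕ, ∃ n : ℕ, w ≤ n ∧ dsum d n < finrank ℚ (Zle n) + dsum d (n - w)] :=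
  period_tfae hd h

end Pool.Agent.Results.MP_e54452_nt.InjectivityFromDimensions
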