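import Mathlib
import Pool.Agent.TH507.WD.E

/-!
# Multiple zeta values with growing arguments: relations of exponential height are stuffle relations
-/

set_option autoImplicit false

namespace Pool.Agent.Results.MP_e54452_nt.StuffleRelations

/-- `trunc [s_1, ..., s_r] m` is the sum of `∏ k_i ^ (-s_i)` over `m > k_1 > ... > k_r ≥ 1` -/
noncomputable def trunc : List ℕ → ℕ → ℝ
  | [], _ => 1
  | s :: l, m => ∑ j ∈ Finset.Ico 1 m, trunc l j / (j : ℝ) ^ s

/-- the multiple zeta value `ζ(s_1, ..., s_r)`, `s_1` belongs to the largest variable -/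
noncomputable def mzv : List ℕ → ℝ
  | [] => 1
  | s :: l => ∑' k : ℕ, trunc l (k + 1) / ((k + 1 : ℕ) : ℝ) ^ s

/-- for a word `w = [(a_1, b_1), ..., (a_r, b_r)]` with `a_i ≥ 1`, `b_i ≥ 0`, the multiple zeta value
`ζ(a_1 n + b_1, ..., a_r n + b_r)` -/
noncomputable def zeta (n : ℕ) (w : List (ℕ+ × ℕ)) : ℝ :=
  mzv (w.map fun x => (x.1 : ℕ) * n + x.2)

/-- the stuffle product of two words, as a list of words (letters are added componentwise) -/
def stuffle : List (ℕ+ × ℕ) → List (ℕ+ × ℕ) → List (List (ℕ+ × ℕ))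
  | [], v => [v]
  | x :: u, [] => [x :: u]
  | x :: u, y :: v => (stuffle u (y :: v)).map (x :: ·) ++ (stuffle (x :: u) v).map (y :: ·) ++
      (stuffle u v).map ((x + y) :: ·)
termination_by u v => u.length + v.length

/-- the stuffle product of several words -/
def stuffles : List (List (ℕ+ × ℕ)) → List (List (ℕ+ × ℕ))
  | [] => [[]]
  | u :: M => (stuffles M).flatMap (stuffle u)

/-- the coefficient of the word `w` in the stuffle expansion of the combination `∑ c M • M` of the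
products `M ∈ 𝓜` -/
def coeff (𝓜 : Finset (List (List (ℕ+ × ℕ)))) (c : List (List (ℕ+ × ℕ)) → ℤ)
    (w : List (ℕ+ × ℕ)) : ℤ := ∑ M ∈ 𝓜, c M * ((stuffles M).countP (· = w) : ℤ)

/-- the value `∑ c M ∏_{u ∈ M} ζ(u(n))` -/
noncomputable def value (𝓜 : Finset (List (List (ℕ+ × ℕ)))) (c : List (List (ℕ+ × ℕ)) → ℤ)
    (n : ℕ) : ℝ := ∑ M ∈ 𝓜, (c M : ℝ) * (M.map fun u => zeta n u).prod

open Pool.Agent.TH507.WD in
/-- Let `𝓜` be a finite set of products of words and `C` a real number. There are `B > 1` and `n0`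
such that for every `n ≥ n0` and all integers `c M` with `|c M| ≤ C ^ n`: either all coefficients of
the stuffle expansion of `∑ c M • M` vanish (and then `∑ c M ∏_{u ∈ M} ζ(u(m)) = 0` for every
`m ≥ 2`), or `|∑ c M ∏_{u ∈ M} ζ(u(n))| > B ^ (-n)`. -/
theorem result (𝓜 : Finset (List (List (ℕ+ × ℕ)))) (C : ℝ) :
    ∃ B : ℝ, 1 < B ∧ ∃ n0 : ℕ, ∀ n : ℕ, n0 ≤ n → ∀ c : List (List (ℕ+ × ℕ)) → ℤ,
      (∀ M ∈ 𝓜, |(c M : ℝ)| ≤ C ^ n) →
      ((∀ w, coeff 𝓜 c w = 0) ∧ ∀ m : ℕ, 2 ≤ m → value 𝓜 c m = 0) ∨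
        (B ^ n)⁻¹ < |value 𝓜 c n| := by
  have h1 : ∀ l m, trunc l m = hr l m := by
    intro l
    induction l with
    | nil => intro m; rw [trunc, hr]
    | cons s l ih =>
      intro m
      rw [trunc, hr]
      exact Finset.sum_congr rfl fun j _ => by rw [ih]
  have h2 : ∀ n w, zeta n w = mz (ar n w) := by
    intro n w
    rw [zeta]
    show mzv (ar n w) = mz (ar n w)
    cases ar n w with
    | nil => rw [mzv, mz]
    | cons s l =>
      rw [mzv, mz]
      exact tsum_congr fun k => by rw [h1]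
  have h3 : ∀ u v, stuffle u v = st u v := by
    intro u v
    induction u, v using st.induct with
    | case1 v => rw [stuffle, st]
    | case2 x u => rw [stuffle, st]
    | case3 x u y v ih1 ih2 ih3 => rw [stuffle, st, ih1, ih2, ih3]
  have h4 : ∀ M, stuffles M = stl M := by
    intro M
    induction M with
    | nil => rw [stuffles, stl]
    | cons u M ih =>
      rw [stuffles, stl, ih]
      congr 1
      funext v
      exact h3 u v
  have h5 : ∀ c w, coeff 𝓜 c w = co 𝓜 c w := by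
    intro c w
    rw [coeff, co]
    simp only [h4]
  have h6 : ∀ c n, value 𝓜 c n = ∑ M ∈ 𝓜, (c M : ℝ) * (M.map fun u => mz (ar n u)).prod := by
    intro c n
    rw [value]
    simp only [h2]
  obtain ⟨B, hB, n0, h⟩ := st_main 𝓜 C
  refine ⟨B, hB, n0, fun n hn c hc => ?_⟩
  by_cases hw : ∃ w, co 𝓜 c w ≠ 0
  · right
    rw [h6]
    exact h n hn c hc hw
  · left
    push Not at hw
    refine ⟨fun w => by rw [h5, hw], fun m hm => ?_⟩
    rw [h6]
    exact st_zero hm 𝓜 c hw

end Pool.Agent.Results.MP_e54452_nt.StuffleRelations
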